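import Pool.Agent.Helper64.PQ.Goals

set_option autoImplicit false

/-!
Project PQ, goal A6: a path which turns a lot at every vertex is straight.
-/

namespace Pool.Agent.Helper75.PQ

open Pool.Agent.Helper64.PQ

section
variable {X : Type} {t : ℕ} {d : X → X → X → ℕ}

theorem fwd (h : Proj t d) (n : ℕ) (a : ℕ → X)
    (h1 : ∀ i, i < n → a i ≠ a (i + 1))
    (h2 : ∀ i, i + 1 < n → 4 * t < d (a (i + 1)) (a i) (a (i + 2))) :
    ∀ m i, i + 1 + m ≤ n → a i ≠ a (i + 1 + m) ∧ d (a (i + 1 + m)) (a i) (a (i + m)) ≤ t := by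
  intro m
  induction m with
  | zero =>
    intro i hi
    exact ⟨h1 i (by omega), h.refl _ _ (h1 i (by omega))⟩
  | succ m ih =>
    intro i hi
    obtain ⟨e1, e2⟩ := ih i (by omega)
    have a1 : a (i + m) ≠ a (i + 1 + m) := by
      have := h1 (i + m) (by omega)
      rwa [show i + m + 1 = i + 1 + m by omega] at this
    have a2 : a (i + 1 + m) ≠ a (i + 1 + (m + 1)) := by
      have := h1 (i + 1 + m) (by omega)
      rwa [show i + 1 + m + 1 = i + 1 + (m + 1) by omega] at this
    have a3 : 4 * t < d (a (i + 1 + m)) (a (i + m)) (a (i + 1 + (m + 1))) := by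
      have := h2 (i + m) (by omega)
      rwa [show i + m + 1 = i + 1 + m by omega, show i + m + 2 = i + 1 + (m + 1) by omega] at this
    have b1 := h.tri (a (i + 1 + m)) (a (i + m)) (a i) (a (i + 1 + (m + 1))) a1 e1 a2.symm
    rw [h.symm (a (i + 1 + m)) (a (i + m)) (a i) a1 e1] at b1
    have pos := h.pos
    have b2 : t < d (a (i + 1 + m)) (a i) (a (i + 1 + (m + 1))) := by omega
    have b3 : a i ≠ a (i + 1 + (m + 1)) := by
      intro hE
      rw [← hE] at b2
      have := h.refl (a (i + 1 + m)) (a i) e1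
      omega
    refine ⟨b3, ?_⟩
    rw [h.symm _ _ _ e1 a2.symm] at b2
    have b4 := h.beh _ _ _ a2 b3.symm e1.symm b2
    rw [h.symm _ _ _ a2 b3] at b4
    rw [show i + (m + 1) = i + 1 + m by omega]
    exact b4

theorem bwd (h : Proj t d) (n : ℕ) (a : ℕ → X)
    (h1 : ∀ i, i < n → a i ≠ a (i + 1))
    (h2 : ∀ i, i + 1 < n → 4 * t < d (a (i + 1)) (a i) (a (i + 2))) :
    ∀ m i, i + 1 + m ≤ n → d (a i) (a (i + 1)) (a (i + 1 + m)) ≤ t := by
  intro m
  induction m with
  | zero =>
    intro i hi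
    exact h.refl _ _ (h1 i (by omega)).symm
  | succ m ih =>
    intro i hi
    have e2 := ih (i + 1) (by omega)
    rw [show i + 1 + 1 + m = i + 1 + (m + 1) by omega, show i + 1 + 1 = i + 2 by omega] at e2
    have e1 := (fwd h n a h1 h2 m (i + 1) (by omega)).1
    rw [show i + 1 + 1 + m = i + 1 + (m + 1) by omega] at e1
    have e0 := (fwd h n a h1 h2 (m + 1) i (by omega)).1
    have a1 := h1 i (by omega)
    have a2 := h1 (i + 1) (by omega)
    rw [show i + 1 + 1 = i + 2 by omega] at a2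
    have a3 := h2 i (by omega)
    have b1 := h.tri (a (i + 1)) (a i) (a (i + 1 + (m + 1))) (a (i + 2)) a1 e1.symm a2.symm
    rw [h.symm _ (a (i + 1 + (m + 1))) (a (i + 2)) e1.symm a2.symm] at b1
    have b2 : t < d (a (i + 1)) (a i) (a (i + 1 + (m + 1))) := by omega
    exact h.beh _ _ _ a1.symm e0 e1 b2

theorem ivt (p : ℕ → Prop) (n : ℕ) (h0 : p 0) (hn : ¬ p n) : ∃ j, j < n ∧ p j ∧ ¬ p (j + 1) := by
  classical
  by_contra hc
  push Not at hc
  have : ∀ j, j ≤ n → p j := by
    intro j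
    induction j with
    | zero => intro _; exact h0
    | succ j ih => intro hj; exact hc j (by omega) (ih (by omega))
  exact hn (this n le_rfl)

end

theorem goalA6 : GoalA6 := by
  intro X t d h n K a h1 h2 h3
  have F := fwd h n a h1 h2
  have B := bwd h n a h1 h2
  have pos := h.pos
  have ne : ∀ i j, i < j → j ≤ n → a i ≠ a j := by
    intro i j hij hj
    have := (F (j - i - 1) i (by omega)).1
    rwa [show i + 1 + (j - i - 1) = j by omega] at this
  have key : ∀ j, 0 < j → j < n →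
      d (a j) (a 0) (a n) ≤ d (a j) (a (j - 1)) (a (j + 1)) + 2 * t ∧
      d (a j) (a (j - 1)) (a (j + 1)) ≤ d (a j) (a 0) (a n) + 2 * t := by
    intro j h0 hj
    have f1 := (F (j - 1) 0 (by omega)).2
    rw [show 0 + 1 + (j - 1) = j by omega, show 0 + (j - 1) = j - 1 by omega] at f1
    have b1 := B (n - j - 1) j (by omega)
    rw [show j + 1 + (n - j - 1) = n by omega] at b1
    have n0 : a 0 ≠ a j := ne 0 j h0 (by omega)
    have nn : a n ≠ a j := (ne j n hj le_rfl).symm
    have n1 : a (j - 1) ≠ a j := ne (j - 1) j (by omega) (by omega)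
    have n2 : a (j + 1) ≠ a j := (ne j (j + 1) (by omega) (by omega)).symm
    have t1 := h.tri (a j) (a 0) (a (j - 1)) (a n) n0 n1 nn
    have t2 := h.tri (a j) (a (j - 1)) (a (j + 1)) (a n) n1 n2 nn
    have t3 := h.tri (a j) (a (j - 1)) (a 0) (a (j + 1)) n1 n0 n2
    have t4 := h.tri (a j) (a 0) (a n) (a (j + 1)) n0 nn n2
    rw [h.symm (a j) (a (j - 1)) (a 0) n1 n0] at t3
    rw [h.symm (a j) (a n) (a (j + 1)) nn n2] at t4
    constructor <;> omega
  refine ⟨fun i j k hij hjk hk => ⟨ne i j hij (by omega), ne j k hjk hk, ne i k (by omega) hk⟩,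
    key, ?_⟩
  intro x hx
  by_cases hp : d x (a 0) (a n) ≤ t
  · omega
  have hx' : ∀ j, j ≤ n → a j ≠ x := fun j hj => (hx j hj).symm
  obtain ⟨j, hj, p1, p2⟩ := ivt (fun j => d x (a 0) (a j) ≤ t) n
    (h.refl x (a 0) (hx' 0 (by omega))) hp
  have q : d x (a (j + 1)) (a n) ≤ t := by
    rcases Nat.lt_or_ge (j + 1) n with hlt | hge
    · have k1 := (key (j + 1) (by omega) hlt).2
      have k2 := h2 j (by omega)
      rw [show j + 1 - 1 = j by omega, show j + 1 + 1 = j + 2 by omega] at k1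
      have n0 : a 0 ≠ a (j + 1) := ne 0 (j + 1) (by omega) (by omega)
      have nn : a n ≠ a (j + 1) := (ne (j + 1) n hlt le_rfl).symm
      have t1 := h.tri (a (j + 1)) (a 0) x (a n) n0 (hx (j + 1) (by omega)) nn
      have p3 : ¬ t < d (a (j + 1)) (a 0) x := by
        intro hlt2
        rw [h.symm _ _ _ n0 (hx (j + 1) (by omega))] at hlt2
        have := h.beh _ _ _ (hx' (j + 1) (by omega)) (hx 0 (by omega)) n0.symm hlt2
        rw [h.symm _ _ _ (hx' (j + 1) (by omega)) (hx' 0 (by omega))] at this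
        exact p2 this
      have p4 : t < d (a (j + 1)) x (a n) := by omega
      exact h.beh _ _ _ (hx' (j + 1) (by omega)) (hx n le_rfl) nn.symm p4
    · have : j + 1 = n := by omega
      rw [this]
      exact h.refl _ _ (hx' n le_rfl)
  have t1 := h.tri x (a 0) (a j) (a n) (hx' _ (by omega)) (hx' _ (by omega)) (hx' _ le_rfl)
  have t2 := h.tri x (a j) (a (j + 1)) (a n) (hx' _ (by omega)) (hx' _ (by omega)) (hx' _ le_rfl)
  have t3 := h3 j hj x (hx j (by omega)) (hx (j + 1) (by omega))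
  omega

end Pool.Agent.Helper75.PQ
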